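import Mathlib

set_option autoImplicit false
open AlgebraicGeometry CategoryTheory TopologicalSpace Topology Order

namespace Pool.Agent.H.MP_d4b31a_ag

universe u
variable {k : Type u} [Field k]

theorem ht_mv (s : ℕ) (m : Ideal (MvPolynomial (Fin s) k)) [m.IsMaximal] : (s : ℕ∞) ≤ m.height := by
  induction s with
  | zero => simp
  | succ s ih =>
    let e := (MvPolynomial.finSuccEquiv k s).toRingEquiv
    haveI : (m.map e).IsMaximal := Ideal.map_isMaximal_of_equiv e
    haveI : ((m.map e).under (MvPolynomial (Fin s) k)).IsMaximal :=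
      Polynomial.isMaximal_comap_C_of_isJacobsonRing _
    rw [← e.height_map m, Polynomial.height_eq_height_add_one ((m.map e).under (MvPolynomial (Fin s) k))]
    push_cast
    exact add_le_add_left (ih _) _

theorem dim_le {A B : Type u} [CommRing A] [CommRing B] [Algebra A B] [Algebra.IsIntegral A B] :
    ringKrullDim B ≤ ringKrullDim A :=
  krullDim_le_of_strictMono (PrimeSpectrum.comap (algebraMap A B)) fun _ _ h => Ideal.IsIntegral.comap_lt_comap h

theorem ht_le {A : Type u} [CommRing A] [IsDomain A] [Algebra k A] [Algebra.FiniteType k A] (q m : Ideal A)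
    [q.IsPrime] [m.IsMaximal] : q.height ≤ m.height := by
  obtain ⟨s, g, h1, h2⟩ := exists_integral_inj_algHom_of_fg k A
  letI := g.toRingHom.toAlgebra
  haveI : Algebra.IsIntegral (MvPolynomial (Fin s) k) A := ⟨h2⟩
  haveI : FaithfulSMul (MvPolynomial (Fin s) k) A := (faithfulSMul_iff_algebraMap_injective _ _).mpr h1
  haveI := Algebra.FiniteType.isNoetherianRing k A
  haveI : (m.under (MvPolynomial (Fin s) k)).IsMaximal := Ideal.isMaximal_comap_of_isIntegral_of_isMaximal m
  have h3 : (q.height : WithBot ℕ∞) ≤ (s : ℕ∞) := by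
    refine Ideal.height_le_ringKrullDim_of_isPrime.trans ((dim_le (A := MvPolynomial (Fin s) k)).trans_eq ?_)
    simp [MvPolynomial.ringKrullDim_of_isNoetherianRing, ringKrullDim_eq_zero_of_field]
  rw [Ideal.height_eq_height_add_of_liesOver_of_hasGoingDown (m.under (MvPolynomial (Fin s) k)) m]
  exact ((WithBot.coe_le_coe.mp h3).trans (ht_mv s _)).trans le_self_add

theorem chart {H : Scheme.{u}} (s : H ⟶ Spec (.of k)) [LocallyOfFiniteType s] (y : H) :
    ∃ (B : CommRingCat.{u}) (_ : Algebra k B) (f : Spec B ⟶ H), Algebra.FiniteType k B ∧ IsOpenImmersion f ∧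
      y ∈ Set.range f ∧ f ≫ s = Spec.map (CommRingCat.ofHom (algebraMap k B)) := by
  obtain ⟨B, f, h1, h2, -⟩ := Scheme.exists_affine_mem_range_and_range_subset (show y ∈ ⊤ from trivial)
  obtain ⟨ψ, hψ⟩ := Spec.map_surjective (f ≫ s)
  refine ⟨B, ψ.hom.toAlgebra, f, ?_, h1, h2, hψ.symm⟩
  have : LocallyOfFiniteType (Spec.map ψ) := hψ ▸ inferInstance
  exact (HasRingHomProperty.Spec_iff (P := @LocallyOfFiniteType)).mp this

attribute [local instance] specializationOrder in
theorem dimZ {H : Scheme.{u}} (s : H ⟶ Spec (.of k)) [LocallyOfFiniteType s] {Z : Type u} [TopologicalSpace Z]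
    [IrreducibleSpace Z] {j : Z → H} (hj : IsClosedEmbedding j) {x : Z} (hx : IsClosed {j x}) :
    topologicalKrullDim Z ≤ coheight (j x) := by
  haveI := LocallyOfFiniteType.jacobsonSpace s
  haveI : JacobsonSpace Z := .of_isClosedEmbedding hj
  haveI : QuasiSober Z := hj.quasiSober
  haveI : T0Space Z := hj.isEmbedding.t0Space
  have hZ : IsIrreducible (Set.range j) := by
    rw [← Set.image_univ]; exact (IrreducibleSpace.isIrreducible_univ Z).image _ hj.continuous.continuousOn
  have ch : ∀ y : Z, ∃ U : Set Z, IsOpen U ∧ y ∈ U ∧ ∀ a ∈ U, ∀ b ∈ U, IsClosed {b} → coheight a ≤ coheight b := by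
    intro y
    obtain ⟨B, _, f, _, _, ⟨y', hy⟩, -⟩ := chart s (j y)
    have h1 : IsIrreducible (f ⁻¹' Set.range j) := ⟨⟨y', y, hy.symm⟩, hZ.2.preimage f.isOpenEmbedding⟩
    let p := PrimeSpectrum.vanishingIdeal (f ⁻¹' Set.range j)
    haveI : p.IsPrime := PrimeSpectrum.isIrreducible_iff_vanishingIdeal_isPrime.mp h1
    have h2 : Set.range (PrimeSpectrum.comap (Ideal.Quotient.mk p)) = f ⁻¹' Set.range j := by
      rw [range_comap_of_surjective _ _ Ideal.Quotient.mk_surjective, Ideal.mk_ker,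
        PrimeSpectrum.zeroLocus_vanishingIdeal_eq_closure]
      exact (hj.isClosed_range.preimage f.continuous).closure_eq
    have h3 := PrimeSpectrum.isClosedEmbedding_comap_of_surjective _ (Ideal.Quotient.mk p)
      Ideal.Quotient.mk_surjective
    choose g hg' using fun a : Spec (.of (B ⧸ p)) => h2.le ⟨a, rfl⟩
    have h4 : Set.range g = j ⁻¹' Set.range f := by
      ext z
      refine ⟨fun ⟨a, e⟩ => ⟨_, (hg' a).symm.trans (congrArg j e)⟩, fun ⟨a, e⟩ => ?_⟩
      obtain ⟨b, rfl⟩ := h2.ge (show f a ∈ Set.range j from ⟨z, e.symm⟩)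
      exact ⟨b, hj.injective ((hg' b).trans e)⟩
    have hg : IsOpenEmbedding g :=
      ⟨hj.isEmbedding.of_comp_iff.mp (funext hg' ▸ f.isOpenEmbedding.isEmbedding.comp h3.isEmbedding :
        IsEmbedding fun a => j (g a)), h4 ▸ f.isOpenEmbedding.isOpen_range.preimage hj.continuous⟩
    refine ⟨_, hg.isOpen_range, h4.ge ⟨y', hy⟩, ?_⟩
    rintro _ ⟨a, rfl⟩ _ ⟨b, rfl⟩ hb
    haveI := (PrimeSpectrum.isClosed_singleton_iff_isMaximal b).mp
      (preimage_closedPoints_subset hg.injective hg.continuous hb)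
    rw [hg.coheight_eq, hg.coheight_eq]
    exact (idealHeight_eq_coheight _ a).symm.trans_le ((ht_le (k := k) _ _).trans_eq (idealHeight_eq_coheight _ b))
  rw [topologicalKrullDim, krullDim_eq_of_orderIso irreducibleSetEquivPoints, krullDim_eq_iSup_coheight]
  refine iSup_le fun y => WithBot.coe_le_coe.mpr ?_
  obtain ⟨U, h1, h2, h3⟩ := ch y
  obtain ⟨V, h4, h5, h6⟩ := ch x
  obtain ⟨z, ⟨h7, h8⟩, h9⟩ := nonempty_inter_closedPoints (nonempty_preirreducible_inter h1 h4 ⟨_, h2⟩ ⟨_, h5⟩)
    (h1.inter h4).isLocallyClosed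
  refine ((h3 _ h2 _ h7 h9).trans (h6 _ h8 _ h5 (preimage_closedPoints_subset hj.injective
    hj.continuous hx))).trans (coheight_le_coheight_apply_of_strictMono j (fun a b h => ?_) _)
  exact ⟨h.1.map hj.continuous, fun h' => h.2 (hj.isInducing.specializes_iff.mp h')⟩

end Pool.Agent.H.MP_d4b31a_ag
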