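import Pool.Agent.H.MP_d4b31a_ag.Defs
import Pool.Agent.H.MP_d4b31a_ag.Dim

set_option autoImplicit false
open Polynomial TensorProduct

namespace Pool.Agent.H.MP_d4b31a_ag

universe u
variable {k : Type u} [Field k]

/-- The numerical semigroup. -/
abbrev inH (n : ℕ) : Prop := n = 0 ∨ (13 ≤ n ∧ n ≠ 19 ∧ n ≠ 21 ∧ n ≠ 24 ∧ n ≠ 25)

/-- Exponents of a basis of the quotient. -/
def SS : Fin 8 → ℕ := ![0, 13, 16, 17, 22, 23, 26, 39]

/-- Exponents of the generators. -/
def ee : Fin 4 → ℕ := ![14, 15, 18, 20]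

theorem lin (c : Fin 4 → ℕ → k) (z : ∀ i n, ¬ inH n → c i n = 0)
    (syz : ∀ i j h b, inH (39 - h) ∧ h ≤ 39 ∧ inH b ∧ 39 - h + ee i = b + ee j →
      c i h = if b ≤ 39 then c j (39 - b) else 0)
    (c0_16 : c 0 16 = 0) (c0_22 : c 0 22 = 0) (c0_26 : c 0 26 = 0) (c0_39 : c 0 39 = 0) (c1_39 : c 1 39 = 0)
    (c2_39 : c 2 39 = 0) (c3_39 : c 3 39 = 0) (i : Fin 4) (n : Fin 8) : c i (SS n) = 0 := by
  have c0_0 : c 0 0 = 0 := (syz 0 1 0 38 (by decide)).trans (z 1 1 (by decide))
  have c0_13 : c 0 13 = 0 := (syz 0 3 13 20 (by decide)).trans (z 3 19 (by decide))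
  have c0_17 : c 0 17 = 0 := (syz 0 2 17 18 (by decide)).trans (z 2 21 (by decide))
  have c0_23 : c 0 23 = 0 := (syz 0 1 23 15 (by decide)).trans (z 1 24 (by decide))
  have c1_0 : c 1 0 = 0 := (syz 1 0 0 40 (by decide)).trans rfl
  have c1_13 : c 1 13 = 0 := (syz 1 0 13 27 (by decide)).trans (z 0 12 (by decide))
  have c1_16 : c 1 16 = 0 := (syz 1 2 16 20 (by decide)).trans (z 2 19 (by decide))
  have c1_17 : c 1 17 = 0 := (syz 1 0 17 23 (by decide)).trans c0_16
  have c1_22 : c 1 22 = 0 := (syz 1 0 22 18 (by decide)).trans (z 0 21 (by decide))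
  have c1_23 : c 1 23 = 0 := (syz 1 0 23 17 (by decide)).trans c0_22
  have c1_26 : c 1 26 = 0 := (syz 1 0 26 14 (by decide)).trans (z 0 25 (by decide))
  have c2_0 : c 2 0 = 0 := (syz 2 0 0 43 (by decide)).trans rfl
  have c2_13 : c 2 13 = 0 := (syz 2 0 13 30 (by decide)).trans (z 0 9 (by decide))
  have c2_16 : c 2 16 = 0 := (syz 2 0 16 27 (by decide)).trans (z 0 12 (by decide))
  have c2_17 : c 2 17 = 0 := (syz 2 0 17 26 (by decide)).trans c0_13
  have c2_22 : c 2 22 = 0 := (syz 2 1 22 20 (by decide)).trans (z 1 19 (by decide))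
  have c2_23 : c 2 23 = 0 := (syz 2 0 23 20 (by decide)).trans (z 0 19 (by decide))
  have c2_26 : c 2 26 = 0 := (syz 2 0 26 17 (by decide)).trans c0_22
  have c3_0 : c 3 0 = 0 := (syz 3 0 0 45 (by decide)).trans rfl
  have c3_13 : c 3 13 = 0 := (syz 3 0 13 32 (by decide)).trans (z 0 7 (by decide))
  have c3_16 : c 3 16 = 0 := (syz 3 0 16 29 (by decide)).trans (z 0 10 (by decide))
  have c3_17 : c 3 17 = 0 := (syz 3 0 17 28 (by decide)).trans (z 0 11 (by decide))
  have c3_22 : c 3 22 = 0 := (syz 3 0 22 23 (by decide)).trans c0_16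
  have c3_23 : c 3 23 = 0 := (syz 3 0 23 22 (by decide)).trans c0_17
  have c3_26 : c 3 26 = 0 := (syz 3 1 26 18 (by decide)).trans (z 1 21 (by decide))
  fin_cases i <;> fin_cases n <;> assumption

variable (k) in
/-- The semigroup ring. -/
def RR : Subalgebra k k[X] where
  carrier := {p | ∀ n, ¬ inH n → p.coeff n = 0}
  add_mem' := fun a b n h => by rw [coeff_add, a n h, b n h, add_zero]
  mul_mem' := fun a b n h => by
    rw [coeff_mul]
    refine Finset.sum_eq_zero fun ⟨i, j⟩ e => ?_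
    have := Finset.HasAntidiagonal.mem_antidiagonal.mp e
    rcases (by omega : ¬ inH i ∨ ¬ inH j) with q | q
    · rw [a i q, zero_mul]
    · rw [b j q, mul_zero]
  algebraMap_mem' := fun r n h => by rw [Polynomial.algebraMap_apply, coeff_C, if_neg fun e => h (.inl e)]

/-- Monomials. -/
noncomputable def mo (n : ℕ) (h : inH n) : RR k := ⟨X ^ n, fun m q => by rw [coeff_X_pow, if_neg]; rintro rfl; exact q h⟩

variable (k) in
/-- The ideal. -/
def II : Ideal (RR k) where
  carrier := {p | ∀ n, p.1.coeff (SS n) = 0}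
  zero_mem' := fun n => rfl
  add_mem' := fun a b n => by rw [Subalgebra.coe_add, coeff_add, a n, b n, add_zero]
  smul_mem' := fun r p h n => by
    rw [smul_eq_mul, Subalgebra.coe_mul, coeff_mul]
    refine Finset.sum_eq_zero fun ⟨i, j⟩ e => ?_
    have h1 := Finset.HasAntidiagonal.mem_antidiagonal.mp e
    have h2 : ∀ n, ∀ j ≤ SS n, ¬ inH (SS n - j) ∨ ¬ inH j ∨ ∃ m, j = SS m := by decide
    rcases h2 n j (by omega) with q | q | ⟨m, rfl⟩
    · rw [r.2 i (by rwa [← h1, Nat.add_sub_cancel] at q), zero_mul]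
    · rw [p.2 j q, mul_zero]
    · rw [h m, mul_zero]

theorem hee (i : Fin 4) : inH (ee i) := by revert i; decide

theorem RR_ind (W : Submodule k (RR k)) (y : RR k) (h : ∀ n hn, y.1.coeff n ≠ 0 → mo n hn ∈ W) : y ∈ W := by
  obtain ⟨y', h1, h2⟩ : y.1 ∈ W.map (RR k).val.toLinearMap := by
    rw [y.1.as_sum_support]
    refine sum_mem fun n hn => ⟨y.1.coeff n • mo n (by_contra fun h => mem_support_iff.mp hn (y.2 n h)),
      W.smul_mem _ (h _ _ (mem_support_iff.mp hn)), ?_⟩
    simp [mo, ← C_mul_X_pow_eq_monomial, smul_eq_C_mul]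
  exact (show y' = y from Subtype.ext h2) ▸ h1

theorem mo_mul (a b : ℕ) (h1 h2 h3) : mo (k := k) a h1 * mo b h2 = mo (a + b) h3 := Subtype.ext (pow_add _ _ _).symm

theorem II_eq : II k = Ideal.span (Set.range fun i => mo (ee i) (hee i)) := by
  refine le_antisymm (fun y hy => RR_ind ((Ideal.span (Set.range fun i => mo (k := k) (ee i) (hee i))).restrictScalars k)
    y fun n h1 hn => ?_) (Ideal.span_le.mpr ?_)
  · have h2 : ∀ m, n ≠ SS m := fun m e => hn (e ▸ hy m)
    obtain ⟨i, h3, h4⟩ : ∃ i, ee i ≤ n ∧ inH (n - ee i) := by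
      simp only [Fin.forall_fin_succ, SS, Fin.exists_fin_succ, ee, Matrix.cons_val_zero, Matrix.cons_val_succ] at h2 ⊢
      omega
    obtain ⟨m, rfl⟩ := Nat.exists_eq_add_of_le' h3
    rw [Nat.add_sub_cancel] at h4
    rw [← mo_mul _ _ h4 (hee i)]
    exact Ideal.mul_mem_left _ _ (Ideal.subset_span ⟨i, rfl⟩)
  · rintro _ ⟨i, rfl⟩ n
    change (X ^ ee i : k[X]).coeff (SS n) = 0
    rw [coeff_X_pow, if_neg]
    revert i n; decide

/-- Coefficient. -/
noncomputable def cf (n : ℕ) : RR k →ₗ[k] k := (lcoeff k n).comp (RR k).val.toLinearMap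

variable (k) in
/-- The point of the Hilbert scheme. -/
noncomputable def I0 : Ideal (k ⊗[k] RR k) := (II k).comap (Algebra.TensorProduct.lid k (RR k))

theorem I0_mem : I0 k ∈ HilbPts k (RR k) 8 k := by
  let ψ : k ⊗[k] RR k →ₗ[k] (Fin 8 → k) := (LinearMap.pi fun n => cf (SS n)).comp (TensorProduct.lid k _).toLinearMap
  have h1 : ∀ n, inH (SS n) := by decide
  have h2 : ∀ m n, SS m = SS n ↔ m = n := by decide
  have hs : Function.Surjective ψ := fun v => ⟨∑ n, v n ⊗ₜ mo _ (h1 n), funext fun m => by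
    simp [ψ, cf, mo, coeff_X_pow, h2]⟩
  let e : ((k ⊗[k] RR k) ⧸ I0 k) ≃ₗ[k] (Fin 8 → k) := (Submodule.Quotient.restrictScalarsEquiv k _).symm.trans
    ((Submodule.quotEquivOfEq _ _ (by ext; exact funext_iff.symm)).trans (ψ.quotKerEquivOfSurjective hs))
  exact ⟨.equiv e.symm, inferInstance, fun p => by rw [Module.rankAtStalk_eq_of_equiv e]; simp⟩

instance : Algebra.IsIntegral (RR k) k[X] := by
  have : IsIntegral (RR k) (X : k[X]) := .of_pow (n := 13) (by simp) (isIntegral_algebraMap (x := mo 13 (by decide)))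
  refine ⟨fun p => ?_⟩
  induction p using Polynomial.induction_on' with
  | add p q hp hq => exact hp.add hq
  | monomial n a =>
    rw [← C_mul_X_pow_eq_monomial]
    exact (isIntegral_algebraMap (x := algebraMap k (RR k) a)).mul (this.pow n)

theorem RR_ft : Algebra.FiniteType k (RR k) := by
  haveI : Algebra.FiniteType (RR k) k[X] := .of_restrictScalars_finiteType k _ _
  haveI : Module.Finite (RR k) k[X] := Algebra.IsIntegral.finite
  exact ⟨fg_of_fg_of_fg k (RR k) k[X] Algebra.FiniteType.out Module.Finite.fg_top Subtype.val_injective⟩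

theorem RR_dim : ringKrullDim (RR k) = 1 := by
  refine le_antisymm ?_ ((IsPrincipalIdealRing.ringKrullDim_eq_one k[X] (Polynomial.not_isField k)).ge.trans dim_le)
  letI := (aeval (R := k) (mo (k := k) 13 (by decide))).toRingHom.toAlgebra
  haveI : IsScalarTower k k[X] (RR k) := .of_algHom (aeval (R := k) (mo (k := k) 13 (by decide)))
  haveI : Algebra.IsIntegral k[X] (RR k) := ⟨fun y => RR_ind ((integralClosure k[X] (RR k)).toSubmodule.restrictScalars k)
    y fun n hn _ => IsIntegral.of_pow (n := 13) (by simp) (by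
      convert isIntegral_algebraMap (A := RR k) (x := (X ^ n : k[X]))
      refine Subtype.ext ?_
      simp [RingHom.algebraMap_toAlgebra, mo, ← pow_mul, mul_comm])⟩
  exact (dim_le (A := k[X])).trans_eq (IsPrincipalIdealRing.ringKrullDim_eq_one k[X] (Polynomial.not_isField k))

end Pool.Agent.H.MP_d4b31a_ag
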