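import Pool.Agent.H.MP_d4b31a_ag.A

set_option autoImplicit false
open Polynomial TensorProduct TrivSqZeroExt DualNumber

namespace Pool.Agent.H.MP_d4b31a_ag

universe u
variable {k : Type u} [Field k]

/-- Contraction with a functional. -/
noncomputable def ev {B : Type u} [CommRing B] [Algebra k B] (D : B →ₗ[k] k) : B ⊗[k] RR k →ₗ[k] RR k :=
  (TensorProduct.lid k _).toLinearMap ∘ₗ D.rTensor _

theorem ev_map {B B' : Type u} [CommRing B] [Algebra k B] [CommRing B'] [Algebra k B'] (D : B' →ₗ[k] k)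
    (φ : B →ₐ[k] B') (x : B ⊗[k] RR k) :
    ev D (Algebra.TensorProduct.map φ (AlgHom.id k _) x) = ev (D ∘ₗ φ.toLinearMap) x := by
  induction x with
  | zero => simp
  | add x y hx hy => simp only [map_add, hx, hy]
  | tmul a b => simp [ev]

theorem ev_cf {B : Type u} [CommRing B] [Algebra k B] (D : B →ₗ[k] k) (n : ℕ) (x : B ⊗[k] RR k) :
    cf n (ev D x) = D (TensorProduct.rid k B ((cf n).lTensor B x)) := by
  induction x with
  | zero => simp
  | add x y hx hy => simp only [map_add, hx, hy]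
  | tmul a b => simp [ev, mul_comm]

theorem dec (x : k[ε] ⊗[k] RR k) :
    x = 1 ⊗ₜ ev (fstHom k k k).toLinearMap x + (ε : k[ε]) ⊗ₜ ev (sndHom k k) x := by
  induction x with
  | zero => simp
  | add x y hx hy => rw [map_add, map_add, tmul_add, tmul_add, add_add_add_comm, ← hx, ← hy]
  | tmul a b =>
    simp only [ev, LinearMap.comp_apply, LinearMap.rTensor_tmul, LinearEquiv.coe_coe, lid_tmul, tmul_smul,
      smul_tmul', ← add_tmul]
    congr 1
    ext <;> simp

theorem flat_eps {M : Type u} [AddCommGroup M] [Module k[ε] M] [Module.Projective k[ε] M] (m : M)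
    (h : (ε : k[ε]) • m = 0) : ∃ n : M, m = (ε : k[ε]) • n := by
  obtain ⟨s, hs⟩ := Module.Projective.out (R := k[ε]) (P := M)
  refine ⟨Finsupp.linearCombination k[ε] id ((s m).mapRange (fun a => inl a.snd) (by simp)), ?_⟩
  rw [← map_smul]
  refine (hs m).symm.trans (congrArg _ (Finsupp.ext fun x => ?_))
  have := congrArg (fun z => (s z x).snd) h
  simp only [map_smul, Finsupp.smul_apply, smul_eq_mul, map_zero] at this
  ext <;> simp_all

theorem rigid {K} (hK : K ∈ HilbPts k (RR k) 8 k[ε])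
    (h0 : ∀ x ∈ K, ev (fstHom k k k).toLinearMap x ∈ II k) (y : Fin 4 → RR k)
    (hy : ∀ i, 1 ⊗ₜ mo (ee i) (hee i) + (ε : k[ε]) ⊗ₜ y i ∈ K)
    (c1 : cf 16 (y 0) = 0) (c2 : cf 22 (y 0) = 0) (c3 : cf 26 (y 0) = 0) (c4 : cf 39 (y 0) = 0)
    (c5 : cf 39 (y 1) = 0) (c6 : cf 39 (y 2) = 0) (c7 : cf 39 (y 3) = 0) :
    K = (II k).map (Algebra.TensorProduct.includeRight (R := k) (A := k[ε])) := by
  have h1 : ∀ z, (ε : k[ε]) ⊗ₜ z ∈ K → z ∈ II k := fun z hz => by
    haveI := hK.2.1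
    obtain ⟨n, hn⟩ := flat_eps (k := k) (Ideal.Quotient.mk K (1 ⊗ₜ z)) (by
      change Ideal.Quotient.mk K ((ε : k[ε]) • (1 : k[ε]) ⊗ₜ z) = 0
      rw [smul_tmul', smul_eq_mul, mul_one]; exact Ideal.Quotient.eq_zero_iff_mem.mpr hz)
    obtain ⟨n, rfl⟩ := Ideal.Quotient.mk_surjective n
    have := h0 _ (Ideal.Quotient.eq.mp (hn.trans (rfl : _ = Ideal.Quotient.mk K ((ε : k[ε]) • n))))
    rw [dec n, smul_add, smul_tmul', smul_tmul', map_sub, map_add] at this
    simpa [ev] using this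
  have h2 : ∀ i, y i ∈ II k := fun i n => by
    refine lin (fun i n => (y i).1.coeff n) (fun i => (y i).2) ?_ c1 c2 c3 c4 c5 c6 c7 i n
    rintro i j h b ⟨h3, h4, h5, h6⟩
    have := h1 (mo _ h3 * y i - mo _ h5 * y j) (by
      convert K.sub_mem (K.mul_mem_left (1 ⊗ₜ mo _ h3) (hy i)) (K.mul_mem_left (1 ⊗ₜ mo _ h5) (hy j)) using 1
      have h7 : inH (b + ee j) := by have := hee j; omega
      simp only [mul_add, Algebra.TensorProduct.tmul_mul_tmul, one_mul, tmul_sub]
      rw [mo_mul _ _ _ _ (h6 ▸ h7), mo_mul _ _ _ _ h7]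
      simp only [h6]
      ring) 7
    change (X ^ (39 - h) * (y i).1 - X ^ b * (y j).1).coeff 39 = 0 at this
    rwa [coeff_sub, coeff_X_pow_mul', coeff_X_pow_mul', if_pos (by omega), Nat.sub_sub_self h4, sub_eq_zero] at this
  have h3 : ∀ z ∈ II k, (ε : k[ε]) ⊗ₜ z ∈ K := fun z hz => by
    rw [II_eq] at hz
    induction hz using Submodule.span_induction with
    | mem _ h =>
      obtain ⟨i, rfl⟩ := h
      simpa [mul_add] using K.mul_mem_left ((ε : k[ε]) ⊗ₜ 1) (hy i)
    | zero => simp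
    | add a b _ _ ha hb => rw [tmul_add]; exact K.add_mem ha hb
    | smul r a _ ha => simpa using K.mul_mem_left (1 ⊗ₜ r) ha
  have h4 : (II k).map (Algebra.TensorProduct.includeRight (R := k) (A := k[ε])) ≤ K := by
    rw [II_eq, Ideal.map_span, Ideal.span_le]
    rintro _ ⟨_, ⟨i, rfl⟩, rfl⟩
    simpa using K.sub_mem (hy i) (h3 _ (h2 i))
  refine le_antisymm (fun x hx => ?_) h4
  have h5 := Ideal.mem_map_of_mem (Algebra.TensorProduct.includeRight (R := k) (A := k[ε])) (h0 x hx)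
  have h6 := K.sub_mem hx (h4 h5)
  rw [dec x]
  nth_rw 1 [dec x] at h6
  rw [Algebra.TensorProduct.includeRight_apply, add_sub_cancel_left] at h6
  refine add_mem h5 ?_
  simpa using Ideal.mul_mem_left _ ((ε : k[ε]) ⊗ₜ 1)
    (Ideal.mem_map_of_mem (Algebra.TensorProduct.includeRight (R := k) (A := k[ε])) (h1 _ h6))

theorem ht_of_tan {B : Type u} [CommRing B] [Algebra k B] [IsNoetherianRing B] (φ0 : B →ₐ[k] k) {n : ℕ}
    (b : Fin n → B) (h : ∀ φ : B →ₐ[k] k[ε], (∀ x, (φ x).fst = φ0 x) → (∀ j, (φ (b j)).snd = 0) → ∀ x, (φ x).snd = 0) :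
    (RingHom.ker φ0).height ≤ n := by
  classical
  let π : B →ₗ[k] B := LinearMap.id - Algebra.linearMap k B ∘ₗ φ0.toLinearMap
  have hπ : ∀ x, π x = x - algebraMap k B (φ0 x) := fun x => rfl
  have h0 : ∀ x, π x ∈ RingHom.ker φ0 := fun x => by simp [hπ, RingHom.mem_ker]
  let N := Ideal.span (Set.range fun j => π (b j))
  have h1 : RingHom.ker φ0 ≤ N ⊔ RingHom.ker φ0 • RingHom.ker φ0 := fun x hx => by
    by_contra hn
    obtain ⟨l, h2, h3⟩ := ((N ⊔ RingHom.ker φ0 • RingHom.ker φ0).restrictScalars k).exists_dual_map_eq_bot_of_notMem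
      hn inferInstance
    have h4 : ∀ z ∈ N ⊔ RingHom.ker φ0 • RingHom.ker φ0, l z = 0 := fun z hz => h3.le ⟨z, hz, rfl⟩
    let φ : B →ₐ[k] k[ε] := AlgHom.ofLinearMap
      ((inlAlgHom k k k).toLinearMap ∘ₗ φ0.toLinearMap + inrHom k k ∘ₗ l ∘ₗ π) (by ext <;> simp [hπ]) fun x y => by
        have := h4 _ (Submodule.mem_sup_right (Submodule.smul_mem_smul (h0 x) (h0 y)))
        have e : π (x * y) = π x • π y + φ0 x • π y + φ0 y • π x := by
          simp only [hπ, Algebra.smul_def, map_mul, Algebra.algebraMap_self, RingHom.id_apply]; ring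
        ext
        · simp
        · simp [e, show l (π x * π y) = 0 from this, mul_comm]
    have := h φ (fun x => by simp [φ]) (fun j => by
      simpa [φ] using h4 _ (Submodule.mem_sup_left (Ideal.subset_span ⟨j, rfl⟩))) x
    simp only [RingHom.mem_ker] at hx
    exact h2 (by simpa [φ, hπ, hx] using this)
  obtain ⟨r, h2, h3⟩ := Submodule.exists_sub_one_mem_and_smul_le_of_fg_of_le_sup (IsNoetherian.noetherian _) le_rfl h1
  haveI := RingHom.ker_isPrime φ0
  refine (Ideal.height_le_card_of_mem_minimalPrimes_span_finset (s := Finset.univ.image fun j => π (b j)) ?_).trans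
    (Nat.cast_le.mpr (Finset.card_image_le.trans (by simp)))
  rw [Finset.coe_image, Finset.coe_univ, Set.image_univ]
  refine ⟨⟨inferInstance, Ideal.span_le.mpr (Set.range_subset_iff.mpr fun j => h0 _)⟩, fun q ⟨h4, h5⟩ h6 x hx => ?_⟩
  refine (h4.mem_or_mem (h5 (h3 (Submodule.smul_mem_pointwise_smul x r _ hx)))).resolve_left fun h7 => ?_
  simpa using sub_mem (h6 h7) h2

theorem tang {B : Type u} [CommRing B] [Algebra k B] [IsNoetherianRing B] (J : Ideal (B ⊗[k] RR k)) (φ0 : B →ₐ[k] k)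
    (h0 : J.map (Algebra.TensorProduct.map φ0 (AlgHom.id k _)) = I0 k)
    (h1 : ∀ φ : B →ₐ[k] k[ε], J.map (Algebra.TensorProduct.map φ (AlgHom.id k _)) ∈ HilbPts k (RR k) 8 k[ε])
    (h2 : Function.Injective fun φ : B →ₐ[k] k[ε] => J.map (Algebra.TensorProduct.map φ (AlgHom.id k (RR k)))) :
    (RingHom.ker φ0).height ≤ 7 := by
  have h3 : ∀ x, Algebra.TensorProduct.lid k (RR k) (Algebra.TensorProduct.map φ0 (AlgHom.id k _) x) =
      ev φ0.toLinearMap x := fun x => by
    exact congrArg (TensorProduct.lid k (RR k)) (by simpa [ev] using ev_map LinearMap.id φ0 x)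
  have h4 : ∀ i, ∃ G ∈ J, ev φ0.toLinearMap G = mo (ee i) (hee i) := fun i => by
    have : (1 : k) ⊗ₜ mo (ee i) (hee i) ∈ I0 k := by
      simp only [I0, II_eq, Ideal.mem_comap, Algebra.TensorProduct.lid_tmul, one_smul]
      exact Ideal.subset_span ⟨i, rfl⟩
    rw [← h0] at this
    obtain ⟨G, h5, h6⟩ := (Ideal.mem_map_iff_of_surjective _ (Algebra.TensorProduct.map_surjective φ0 _
      (fun a => ⟨algebraMap k B a, by simp⟩) Function.surjective_id)).mp this
    exact ⟨G, h5, by rw [← h3, h6]; simp⟩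
  choose G h4 h5 using h4
  let co := fun n i => TensorProduct.rid k B ((cf n).lTensor B (G i))
  let b := ![co 16 0, co 22 0, co 26 0, co 39 0, co 39 1, co 39 2, co 39 3]
  have key : ∀ φ : B →ₐ[k] k[ε], (∀ x, (φ x).fst = φ0 x) → (∀ j, (φ (b j)).snd = 0) →
      J.map (Algebra.TensorProduct.map φ (AlgHom.id k _)) =
        (II k).map (Algebra.TensorProduct.includeRight (R := k) (A := k[ε])) := fun φ h6 h7 => by
    have h8 : (fstHom k k k).toLinearMap ∘ₗ φ.toLinearMap = φ0.toLinearMap := LinearMap.ext h6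
    refine rigid (h1 φ) (fun x hx => ?_) (fun i => ev (sndHom k k ∘ₗ φ.toLinearMap) (G i)) (fun i => ?_)
      ((ev_cf _ _ _).trans (h7 0)) ((ev_cf _ _ _).trans (h7 1)) ((ev_cf _ _ _).trans (h7 2))
      ((ev_cf _ _ _).trans (h7 3)) ((ev_cf _ _ _).trans (h7 4)) ((ev_cf _ _ _).trans (h7 5))
      ((ev_cf _ _ _).trans (h7 6))
    · have h9 := Ideal.mem_map_of_mem (Algebra.TensorProduct.map (fstHom k k k) (AlgHom.id k (RR k))) hx
      rw [Ideal.map_mapₐ, ← Algebra.TensorProduct.map_comp, show (fstHom k k k).comp φ = φ0 from AlgHom.ext h6,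
        AlgHom.id_comp, h0] at h9
      have := ev_map LinearMap.id (fstHom k k k) x
      rw [LinearMap.id_comp] at this
      rw [← this]
      simp only [ev, LinearMap.rTensor_id, LinearMap.comp_id]
      exact h9
    · rw [← h5, ← h8, ← ev_map, ← ev_map, ← dec]
      exact Ideal.mem_map_of_mem _ (h4 i)
  refine ht_of_tan φ0 b fun φ h6 h7 x => ?_
  rw [h2 ((key φ h6 h7).trans (key ((inlAlgHom k k k).comp φ0) (fun x => rfl) fun j => rfl).symm)]
  rfl

end Pool.Agent.H.MP_d4b31a_ag
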