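import Mathlib

set_option autoImplicit false
open AlgebraicGeometry CategoryTheory TensorProduct

namespace Pool.Agent.H.MP_d4b31a_ag

universe u

/-- `T`-points of the Hilbert functor of `d` points on `Spec R`. -/
def HilbPts (k : Type u) [Field k] (R : Type u) [CommRing R] [Algebra k R] (d : ℕ) (T : Type u) [CommRing T]
    [Algebra k T] : Set (Ideal (T ⊗[k] R)) :=
  {J | Module.Finite T ((T ⊗[k] R) ⧸ J) ∧ Module.Projective T ((T ⊗[k] R) ⧸ J) ∧
    ∀ p : PrimeSpectrum T, Module.rankAtStalk ((T ⊗[k] R) ⧸ J) p = d}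

/-- The `k`-scheme `H` represents the Hilbert functor of `d` points on `Spec R`. -/
def IsHilb (k : Type u) [Field k] (R : Type u) [CommRing R] [Algebra k R] (d : ℕ) (H : Scheme.{u})
    (s : H ⟶ Spec (.of k)) : Prop :=
  ∃ U : ∀ (T : Type u) [CommRing T] [Algebra k T], (Spec (.of T) ⟶ H) → Ideal (T ⊗[k] R),
    (∀ (T : Type u) [CommRing T] [Algebra k T],
      Set.BijOn (U T) {f | f ≫ s = Spec.map (CommRingCat.ofHom (algebraMap k T))} (HilbPts k R d T)) ∧
    ∀ (T T' : Type u) [CommRing T] [Algebra k T] [CommRing T'] [Algebra k T'] (φ : T →ₐ[k] T')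
      (f : Spec (.of T) ⟶ H), f ≫ s = Spec.map (CommRingCat.ofHom (algebraMap k T)) →
      U T' (Spec.map (CommRingCat.ofHom φ.toRingHom) ≫ f) =
        (U T f).map (Algebra.TensorProduct.map φ (AlgHom.id k R))

end Pool.Agent.H.MP_d4b31a_ag
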